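import Mathlib
import Pool.Agent.V11298.CR.Int

/-!
# Covering `[1, N]` by one residue class for each prime near `N ^ α`: perturbed choices

`coveredCount α N a` is `S_a(N)`, the number of integers of `[1, N]` in the class `a p` modulo `p`
for some prime `N ^ α ≤ p < 2 N ^ α` (`Pool/Agent/H170R2/PC/Defs.lean`), `PD α N` is the set of
these primes (`Pool/Agent/H170R2/PC/Asym.lean`), and `covered P N a` is the same number for the
primes of a set `P`. For a function `t` on `P`, `perturb a t` is the choice with the class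
`a p + t p` for the primes `p` of `P` (`Pool/Agent/V11298/CR/Alp.lean`).

(1) says that for `1/2 < α < 1` and EVERY choice `a`, almost all perturbations `t` of `a` with
`0 ≤ t p < T`, `T ≥ N ^ (2 α - 1)`, have `S ≥ c N / log N`, the order of the trivial upper bound.
(2) is the same for smaller perturbations, with the bound `c T N ^ (2 - 2 α)`. (3) is the same for
all sets `P` of primes of the range and all sets `D` of perturbations with
`|D + D - D - D| ≤ K |D|`.

Outline: if `n`, `n'` lie both in the perturbed classes of `p` and of `q` then the difference leads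
to integers `u`, `v` of size at most `2 N / p` such that `p u - q v` is in `D + D - D - D`. A nonzero
integer `q v + e` has at most two prime factors of size `N ^ α`; so the mean over all perturbations
of the number of common elements of the classes is small, and the mean of the number of covered
integers is large. The bounded differences inequality (`Pool.Agent.V1181.BDiff`) gives the
exponentially small exceptional sets.
-/

set_option autoImplicit false

open Finset Filter Topology
open scoped Pointwise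
open Pool.Agent.H170R2.PC Pool.Agent.V11298.CR

namespace Pool.Agent.Results.MP_bb5cc8_nt.PerturbedClasses

theorem result :
    -- (1) perturbations by `0 ≤ t p < T` with `T ≥ N ^ (2 α - 1)`
    (∀ α : ℝ, 1 / 2 < α → α < 1 → ∃ N₀ : ℕ, ∀ N : ℕ, N₀ ≤ N → ∀ T : ℕ,
      (N : ℝ) ^ (2 * α - 1) ≤ T → 2 * (T : ℝ) ≤ (N : ℝ) ^ α → ∀ a : (p : ℕ) → ZMod p,
      ((univ.filter fun t : PD α N → Ico (0 : ℤ) T =>
          (coveredCount α N (perturb a t) : ℝ) < N / Real.log N / 10 ^ 8).card : ℝ) ≤
        Real.exp (-((N : ℝ) ^ α / Real.log N / 10 ^ 9)) * (T : ℝ) ^ (PD α N).card) ∧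
    -- (2) smaller perturbations
    (∀ α : ℝ, 1 / 2 < α → α < 1 → ∃ N₀ : ℕ, ∀ N : ℕ, N₀ ≤ N → ∀ T : ℕ,
      1 ≤ T → 2 * (T : ℝ) ≤ (N : ℝ) ^ α → ∀ a : (p : ℕ) → ZMod p,
      ((univ.filter fun t : PD α N → Ico (0 : ℤ) T => (coveredCount α N (perturb a t) : ℝ) <
          min (N / Real.log N) (T * (N : ℝ) ^ (2 - 2 * α)) / 10 ^ 8).card : ℝ) ≤
        Real.exp (-(min ((N : ℝ) ^ α / Real.log N) (T * (N : ℝ) ^ (1 - α)) / 10 ^ 9)) *
          (T : ℝ) ^ (PD α N).card) ∧
    -- (3) any set of primes of the range, any set of perturbations with few sums and differences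
    (∀ α : ℝ, 1 / 2 < α → α < 1 → ∃ N₀ : ℕ, ∀ N : ℕ, N₀ ≤ N →
      ∀ P : Finset ℕ, (∀ p ∈ P, InRange α N p) → ∀ (a : (p : ℕ) → ZMod p) (K : ℝ) (D : Finset ℤ),
      D.Nonempty → (∀ s ∈ D, 0 ≤ s ∧ 2 * (s : ℝ) < (N : ℝ) ^ α) →
      ((D + D - (D + D)).card : ℝ) ≤ K * D.card →
      ((univ.filter fun t : P → D => (covered P N (perturb a t) : ℝ) <
          min (P.card : ℝ) (D.card * (N : ℝ) ^ (1 - α)) * (N : ℝ) ^ (1 - α) /
            (10 ^ 7 * K)).card : ℝ) ≤
        Real.exp (-(min (P.card : ℝ) (D.card * (N : ℝ) ^ (1 - α)) / (10 ^ 7 * K ^ 2))) *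
          (D.card : ℝ) ^ P.card) := by
  refine ⟨fun α h12 h1 => ?_, fun α h12 h1 => ?_, fun α h12 h1 => ?_⟩
  · obtain ⟨N₀, h⟩ := eventually_atTop.1 (interval α h12 h1)
    refine ⟨max N₀ 3, fun N hN T hT hTN a => ?_⟩
    have hN3 : 3 ≤ N := (le_max_right _ _).trans hN
    have hN0 : (0 : ℝ) < N := by exact_mod_cast (by omega : 0 < N)
    have hN3' : (3 : ℝ) ≤ N := by exact_mod_cast hN3
    have hlog1 : 1 ≤ Real.log N := by
      rw [Real.le_log_iff_exp_le hN0]
      exact (Real.exp_one_lt_d9.le.trans (by norm_num)).trans hN3'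
    have hT0 : (0 : ℝ) < T := lt_of_lt_of_le (by positivity) hT
    have hT1 : 1 ≤ T := by exact_mod_cast (Nat.cast_pos.1 hT0)
    have hi := h N ((le_max_left _ _).trans hN) T hT1 hTN a
    have e1 : (N : ℝ) ^ α ≤ T * (N : ℝ) ^ (1 - α) := by
      calc (N : ℝ) ^ α = (N : ℝ) ^ (2 * α - 1) * (N : ℝ) ^ (1 - α) := by
            rw [← Real.rpow_add hN0]
            congr 1
            ring
        _ ≤ _ := mul_le_mul_of_nonneg_right hT (by positivity)
    have e2 : (N : ℝ) ≤ T * (N : ℝ) ^ (2 - 2 * α) := by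
      calc (N : ℝ) = (N : ℝ) ^ (2 * α - 1) * (N : ℝ) ^ (2 - 2 * α) := by
            rw [← Real.rpow_add hN0]
            have : 2 * α - 1 + (2 - 2 * α) = 1 := by ring
            rw [this, Real.rpow_one]
        _ ≤ _ := mul_le_mul_of_nonneg_right hT (by positivity)
    have m1 : min (N / Real.log N) (T * (N : ℝ) ^ (2 - 2 * α)) = N / Real.log N :=
      min_eq_left ((div_le_self hN0.le hlog1).trans e2)
    have m2 : min ((N : ℝ) ^ α / Real.log N) (T * (N : ℝ) ^ (1 - α)) =
        (N : ℝ) ^ α / Real.log N :=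
      min_eq_left ((div_le_self (by positivity) hlog1).trans e1)
    rw [m1, m2] at hi
    exact hi
  · exact eventually_atTop.1 (interval α h12 h1)
  · exact eventually_atTop.1 (general α h12 h1)

end Pool.Agent.Results.MP_bb5cc8_nt.PerturbedClasses
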